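import Pool.Agent.H13.EJ.Curl
import Pool.Agent.H76.CHN.Fin

/-!
# The data of the chains of lines for the derivatives

`chh_deriv`: the data `ChH` of degree `b + 1` give the data `ChH` of degree `b` for the derivatives,
if the derivative of the label is not full given the position.
-/

set_option autoImplicit false

namespace Pool.EJ13

open Finset Real MvPolynomial
open Pool.Agent.H49.Ent Pool.Agent.H32.Dense Pool.STK Pool.MIC
open Pool.STB
open Pool.BFL (Pb CB)

theorem deg_pd1 {P : Po} {b : ℕ} (h : P.totalDegree ≤ b + 1) (i : Fin 3) :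
    (pderiv i P).totalDegree ≤ b := by
  classical
  refine Finset.sup_le fun s hs => ?_
  rw [mem_support_iff, coeff_pderiv] at hs
  have h1 : coeff (s + Finsupp.single i 1) P ≠ 0 := fun h0 => hs (by rw [h0, zero_mul])
  have h2 := le_totalDegree (mem_support_iff.2 h1)
  have h3 : ((s + Finsupp.single i 1).sum fun _ e => e) = (s.sum fun _ e => e) + 1 := by
    rw [Finsupp.sum_add_index' (fun _ => rfl) (fun _ _ _ => rfl), Finsupp.sum_single_index rfl]
  omega

/-- The derivative in the direction of a coordinate. -/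
theorem pd_dX (P : Po) (i : Fin 3) (q : V3) :
    eval q (dX (Pi.single i 1) P) = eval q (pderiv i P) := by
  classical
  rw [eval_dX, Finset.sum_eq_single i (fun l _ hl => by rw [Pi.single_eq_of_ne hl, zero_mul])
    (fun hj => absurd (Finset.mem_univ _) hj), Pi.single_eq_same, one_mul]

theorem pd_shf (x : V3) (f : Po) (i : Fin 3) (q : V3) :
    eval q (pderiv i (shf x f)) = eval (q - x) (pderiv i f) := by
  classical
  rw [← pd_dX, ← pd_dX]
  have h1 := line_der q (Pi.single i 1) (shf x f) 0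
  have h2 := line_der (q - x) (Pi.single i 1) f 0
  have e : (fun s : ℝ => eval (q + s • (Pi.single i 1 : V3)) (shf x f)) =
      fun s => eval (q - x + s • (Pi.single i 1 : V3)) f := by
    funext s
    rw [eval_shf]
    congr 2
    abel
  rw [e] at h1
  have h3 := h1.unique h2
  rwa [zero_smul, add_zero, add_zero] at h3

/-- A scaled integer part. -/
theorem CH_scale {Ω T : Type} [Fintype Ω] {q : Ω → ℝ} (hq : IsLaw q) (g : Ω → ℝ) (W : Ω → T)
    {a : ℝ} (ha0 : 0 ≤ a) (ha1 : a ≤ 1) :
    CH q (fun ω => ⌊a * g ω⌋) W ≤ CH q (fun ω => ⌊g ω⌋) W + Real.log 5 := by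
  have h1 := CH_le_add hq.nonneg (fun ω => ⌊a * g ω⌋) (fun ω => ⌊g ω⌋) W
  have h2 := CH_le_int hq.nonneg hq.sum_one (fun ω => ⌊a * g ω⌋) (fun ω => (⌊g ω⌋, W ω))
    (fun _ => 2) (fun ω ω' _ _ e => by
      have e1 : ⌊g ω⌋ = ⌊g ω'⌋ := (Prod.ext_iff.mp e).1
      have e2 : (⌊g ω⌋ : ℝ) = ⌊g ω'⌋ := by rw [e1]
      have a1 := Int.floor_le (g ω)
      have a2 := Int.lt_floor_add_one (g ω)
      have b1 := Int.floor_le (g ω')
      have b2 := Int.lt_floor_add_one (g ω')
      have c1 := Int.floor_le (a * g ω)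
      have c2 := Int.lt_floor_add_one (a * g ω)
      have d1 := Int.floor_le (a * g ω')
      have d2 := Int.lt_floor_add_one (a * g ω')
      have h3 : |g ω - g ω'| ≤ 1 := by
        rw [abs_le]
        constructor <;> linarith
      have h4 : |a * g ω - a * g ω'| ≤ 1 := by
        rw [← mul_sub, abs_mul, abs_of_nonneg ha0]
        calc a * |g ω - g ω'| ≤ 1 * 1 := mul_le_mul ha1 h3 (abs_nonneg _) zero_le_one
          _ = 1 := one_mul 1
      rw [abs_le] at h4
      push_cast
      rw [abs_le]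
      constructor <;> linarith [h4.1, h4.2])
  rw [Ex_const hq.sum_one] at h2
  norm_num at h2
  linarith

/-- **The data for the derivatives.** -/
theorem chh_deriv (b : ℕ) : ∃ A : ℝ, 1 ≤ A ∧ ∀ {Ω Λ Z Y 𝒟 : Type} [Fintype Ω] {p : Ω → ℝ}
    {L : Ω → Λ} {z : Ω → Z} {y : Ω → Y} {t : Ω → ℤ} {D : Λ → 𝒟} {X : 𝒟 → V3} {Φ : 𝒟 → Po}
    {x : Z → V3} {J : Z → Po} {M : ℕ} {K e h h' R R' η c : ℝ},
    ChH p L z y t D X Φ x J (b + 1) M K e h' R' η c → ∀ i : Fin 3,
    (∀ q : Ω → ℝ, IsLaw q → (∀ ω, q ω ≤ R * p ω) →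
      CH q (fun ω => ⌊(M : ℝ) * eval (x (z ω)) (pderiv i (J (z ω)))⌋)
        (fun ω => (cv M (x (z ω)), y ω)) ≤ (1 - h) * Real.log M + e) →
    ChH p L z y t D X (fun d => C (1 / A) * pderiv i (Φ d)) x
      (fun r => C (1 / A) * pderiv i (J r)) b M K (e + Real.log 5) h R η c := by
  obtain ⟨A, hA, hm⟩ := mkv4 (b + 1)
  refine ⟨A, hA, ?_⟩
  intro Ω Λ Z Y 𝒟 _ p L z y t D X Φ x J M K e h h' R R' η c H i hnf
  have hA0 : 0 < A := by linarith
  have hinv : 0 < 1 / A := by positivity
  have hinv1 : 1 / A ≤ 1 := (div_le_one hA0).2 hA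
  have hl5 : 0 ≤ Real.log 5 := Real.log_nonneg (by norm_num)
  have hsc : ∀ (P : Po) (q : V3), |eval q (C (1 / A) * P)| = 1 / A * |eval q P| := fun P q => by
    rw [map_mul, eval_C, abs_mul, abs_of_pos hinv]
  have hdiv : ∀ {u v : ℝ}, u ≤ A * v → 1 / A * u ≤ v := fun {u v} h => by
    rw [one_div, inv_mul_le_iff₀ hA0]
    exact h
  exact {
    law := H.law
    yL := H.yL
    yz := H.yz
    tz := H.tz
    tM := H.tM
    full := by have := H.full; linarith
    free := by have := H.free; linarith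
    X1 := H.X1
    Φ1 := fun d => by
      have h1 := H.Φ1 d
      refine ⟨?_, fun q hq => ?_⟩
      · have h2 := (isHomogeneous_C (Fin 3) (1 / A)).mul (h1.hom.pderiv (i := i))
        rwa [zero_add] at h2
      · show |eval q (C (1 / A) * pderiv i (Φ d))| ≤ 1
        rw [hsc]
        exact hdiv (hm _ 1 h1.hom.totalDegree_le h1.bd i q fun j => (hq j).trans (by norm_num)).1
    x1 := H.x1
    J1 := fun r => by
      obtain ⟨h1, h2⟩ := H.J1 r
      refine ⟨?_, fun q hq => ?_⟩
      · refine (totalDegree_mul _ _).trans ?_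
        rw [totalDegree_C, zero_add]
        exact deg_pd1 h1 i
      · show |eval q (C (1 / A) * pderiv i (J r))| ≤ K
        rw [hsc]
        exact hdiv (hm _ K h1 h2 i q fun j => (hq j).trans (by norm_num)).1
    pos := H.pos
    jet := fun ω ω' h1 h2 h3 q hq => by
      obtain ⟨E, hE⟩ : ∃ E : Po, E = (J (z ω') + shf (x (z ω')) (Φ (D (L ω)))) -
        (J (z ω) + shf (x (z ω)) (Φ (D (L ω)))) := ⟨_, rfl⟩
      have hEe : ∀ q, eval q E = (eval q (J (z ω')) + eval (q - x (z ω')) (Φ (D (L ω)))) -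
          (eval q (J (z ω)) + eval (q - x (z ω)) (Φ (D (L ω)))) := fun q => by
        rw [hE, map_sub, map_add, map_add, eval_shf, eval_shf]
      have hEd : ∀ q, eval q (pderiv i E) = (eval q (pderiv i (J (z ω'))) +
          eval (q - x (z ω')) (pderiv i (Φ (D (L ω))))) - (eval q (pderiv i (J (z ω))) +
          eval (q - x (z ω)) (pderiv i (Φ (D (L ω))))) := fun q => by
        rw [hE]
        simp only [map_sub, map_add]
        rw [pd_shf, pd_shf]
      have hEt : E.totalDegree ≤ b + 1 := by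
        have hΦd := (H.Φ1 (D (L ω))).hom.totalDegree_le
        rw [hE]
        refine (totalDegree_sub _ _).trans (max_le ?_ ?_)
        · exact (totalDegree_add _ _).trans (max_le (H.J1 _).1 ((deg_shf _ _).trans hΦd))
        · exact (totalDegree_add _ _).trans (max_le (H.J1 _).1 ((deg_shf _ _).trans hΦd))
      have h4 := (hm E (K / M) hEt (fun q hq => by
        rw [hEe]
        exact H.jet ω ω' h1 h2 h3 q fun j => (hq j).trans (by norm_num)) i q hq).1
      have h5 := hdiv h4
      refine le_trans (le_of_eq ?_) h5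
      rw [hEd, ← abs_of_pos hinv, ← abs_mul]
      simp only [map_mul, eval_C]
      rw [abs_of_pos hinv]
      congr 1
      ring
    nf := fun q hq hd => by
      have h1 := hnf q hq hd
      have h2 := CH_scale hq (fun ω => (M : ℝ) * eval (x (z ω)) (pderiv i (J (z ω))))
        (fun ω => (cv M (x (z ω)), y ω)) hinv.le hinv1
      have e1 : (fun ω => ⌊(M : ℝ) * val x (fun r => C (1 / A) * pderiv i (J r)) (z ω)⌋) =
          fun ω => ⌊1 / A * ((M : ℝ) * eval (x (z ω)) (pderiv i (J (z ω))))⌋ := by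
        funext ω
        rw [Pool.STB.val]
        simp only [map_mul, eval_C]
        congr 1
        ring
      rw [e1]
      linarith
    gp := H.gp }

end Pool.EJ13
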