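import Pool.Agent.H13.EJ.Der

/-!
# The polynomials of the derivatives are the derivatives of a polynomial

The derivatives `∂ i (Φ a)` of three polynomials of degree `b` differ from `f i` by polynomials which are
nearly constant in the directions `X a`. If `3 ≤ b`, then `f` has a small curl (`curl_small`), and the
polynomial `pot f` has the derivatives `f`: `Φ - pot f` is nearly constant in the direction (`inv_pot`).
-/

set_option autoImplicit false

namespace Pool.EJ13

open Finset Real MvPolynomial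
open Pool.STB

/-- The curl. -/
noncomputable def crl (f : Fin 3 → Po) (i k : Fin 3) : Po := pderiv k (f i) - pderiv i (f k)

/-- The potential. -/
noncomputable def pot (b : ℕ) (f : Fin 3 → Po) : Po := C (1 / (b : ℝ)) * ∑ i, X i * f i

theorem pot_hom {b : ℕ} (hb : 1 ≤ b) {f : Fin 3 → Po} (hf : ∀ i, (f i).IsHomogeneous (b - 1)) :
    (pot b f).IsHomogeneous b := by
  have h1 : (∑ i, X i * f i : Po).IsHomogeneous b := IsHomogeneous.sum _ _ _ fun i _ => by
    have h2 := (isHomogeneous_X ℝ i).mul (hf i)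
    rwa [show 1 + (b - 1) = b by omega] at h2
  have h3 := (isHomogeneous_C (Fin 3) (1 / (b : ℝ))).mul h1
  rwa [zero_add] at h3

theorem pot_pd {b : ℕ} (hb : 1 ≤ b) {f : Fin 3 → Po} (hf : ∀ i, (f i).IsHomogeneous (b - 1))
    (k : Fin 3) (q : V3) : eval q (pderiv k (pot b f)) =
      eval q (f k) + 1 / b * ∑ i, q i * eval q (crl f i k) := by
  have hb0 : (b : ℝ) ≠ 0 := by positivity
  have h1 : eval q (pderiv k (∑ i, X i * f i : Po)) =
      eval q (f k) + ∑ i, q i * eval q (pderiv k (f i)) := by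
    rw [map_sum, map_sum]
    have e : ∀ i, eval q (pderiv k (X i * f i : Po)) =
        (if i = k then eval q (f i) else 0) + q i * eval q (pderiv k (f i)) := by
      intro i
      rw [pderiv_mul, map_add, map_mul, map_mul, eval_X]
      by_cases hi : i = k
      · rw [if_pos hi, hi, pderiv_X_self, map_one]
        ring
      · rw [if_neg hi, pderiv_X_of_ne hi, map_zero]
        ring
    rw [Finset.sum_congr rfl fun i _ => e i, Finset.sum_add_distrib, Finset.sum_ite_eq']
    simp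
  have h2 := euler (hf k) q
  have h3 : ∑ i, q i * eval q (crl f i k) =
      ∑ i, q i * eval q (pderiv k (f i)) - ∑ i, q i * eval q (pderiv i (f k)) := by
    rw [← Finset.sum_sub_distrib]
    exact Finset.sum_congr rfl fun i _ => by rw [crl, map_sub]; ring
  unfold pot
  rw [pderiv_C_mul, map_mul, eval_C, h1, h3, h2]
  have h4 : ((b - 1 : ℕ) : ℝ) = b - 1 := by
    push_cast [Nat.cast_sub hb]
    ring
  rw [h4]
  field_simp
  ring

/-- Three directions: the derivatives from the derivatives in the directions. -/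
theorem pd_three {Y : Fin 3 → V3} {η : ℝ} (hη : 0 < η) (hY : ∀ a, Bx 1 (Y a))
    (hd : η ≤ |(mt Y).det|) {P : Po} {q : V3} {κ : ℝ} (h : ∀ a, |eval q (dX (Y a) P)| ≤ κ)
    (j : Fin 3) : |eval q (pderiv j P)| ≤ 18 * κ / η := by
  classical
  have hne : (mt Y).det ≠ 0 := by
    intro h0
    rw [h0, abs_zero] at hd
    linarith
  obtain ⟨e, he⟩ : ∃ e : V3, e = Pi.single j 1 := ⟨_, rfl⟩
  have he1 : Bx 1 e := fun i => by
    rw [he]
    by_cases hi : i = j
    · rw [hi, Pi.single_eq_same, abs_one]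
    · rw [Pi.single_eq_of_ne hi, abs_zero]
      exact zero_le_one
  have hc := crd_bd hη hY hd he1
  have h1 : eval q (pderiv j P) = ∑ a, crd Y e a * eval q (dX (Y a) P) := by
    have h2 : ∀ a, crd Y e a * eval q (dX (Y a) P) =
        ∑ l, (crd Y e a • Y a) l * eval q (pderiv l P) := by
      intro a
      rw [eval_dX, Finset.mul_sum]
      exact Finset.sum_congr rfl fun l _ => by
        rw [Pi.smul_apply, smul_eq_mul]
        ring
    rw [Finset.sum_congr rfl fun a _ => h2 a, Finset.sum_comm]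
    have h3 : ∀ l, ∑ a, (crd Y e a • Y a) l * eval q (pderiv l P) =
        e l * eval q (pderiv l P) := by
      intro l
      rw [← Finset.sum_mul]
      congr 1
      have h4 := congrFun (crd_sum hne e) l
      rw [Finset.sum_apply] at h4
      exact h4
    rw [Finset.sum_congr rfl fun l _ => h3 l, he]
    rw [Finset.sum_eq_single j (fun l _ hl => by rw [Pi.single_eq_of_ne hl, zero_mul])
      (fun hj => absurd (Finset.mem_univ _) hj), Pi.single_eq_same, one_mul]
  have hκ : 0 ≤ κ := (abs_nonneg _).trans (h 0)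
  rw [h1]
  refine (Finset.abs_sum_le_sum_abs _ _).trans ?_
  have h5 : ∀ a ∈ (Finset.univ : Finset (Fin 3)), |crd Y e a * eval q (dX (Y a) P)| ≤
      6 / η * κ := fun a _ => by
    rw [abs_mul]
    exact mul_le_mul (hc a) (h a) (abs_nonneg _) (by positivity)
  refine (Finset.sum_le_sum h5).trans (le_of_eq ?_)
  rw [Finset.sum_const, Finset.card_univ, Fintype.card_fin, nsmul_eq_mul]
  push_cast
  ring

/-- **The curl is small.** -/
theorem curl_small (b : ℕ) (hb : 3 ≤ b) : ∃ A : ℝ, 1 ≤ A ∧ ∀ (Y : Fin 3 → V3) (Φ : Fin 3 → Po)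
    (f : Fin 3 → Po) (η δ : ℝ), 0 < η → 0 ≤ δ → (∀ a, Bx 1 (Y a)) → η ≤ |(mt Y).det| →
    (∀ a, (Φ a).IsHomogeneous b) → (∀ i, (f i).IsHomogeneous (b - 1)) →
    (∀ a i, Inv (Y a) (pderiv i (Φ a)) (f i) δ) →
    ∀ i k (q : V3), Bx 4 q → |eval q (crl f i k)| ≤ A * δ / η := by
  obtain ⟨A₁, hA₁, h1⟩ := inv_dX b
  obtain ⟨A₂, hA₂, h2⟩ := mkv4 b
  refine ⟨432 * (A₂ * A₁), by nlinarith [mul_le_mul hA₂ hA₁ zero_le_one (by linarith)], ?_⟩
  intro Y Φ f η δ hη hδ hY hd hΦ hf hI i k q hq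
  obtain ⟨G, hG⟩ : ∃ G : Fin 3 → Fin 3 → Po, G = fun a i => pderiv i (Φ a) - f i := ⟨_, rfl⟩
  have hGd : ∀ a i, (G a i).totalDegree ≤ b := fun a i => by
    have h3 : (G a i).IsHomogeneous (b - 1) := by
      rw [hG]
      exact (hΦ a).pderiv.sub (hf i)
    exact (h3.totalDegree_le).trans (Nat.sub_le _ _)
  have hH : ∀ a i (q : V3), Bx 1 q → |eval q (dX (Y a) (G a i))| ≤ A₁ * δ := fun a i =>
    h1 (Y a) (G a i) δ (hGd a i) fun q hq s hs => by
      have h3 := hI a i q hq s hs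
      rw [hG]
      simp only [map_sub]
      exact h3
  have hcomm : ∀ a, dX (Y a) (crl f i k) =
      pderiv i (dX (Y a) (G a k)) - pderiv k (dX (Y a) (G a i)) := by
    intro a
    rw [dX_pd, dX_pd, hG]
    simp only [map_sub]
    rw [crl, dX_sub, dX_sub, dX_sub, pd_comm i k]
    ring
  have hB : ∀ a, |eval q (dX (Y a) (crl f i k))| ≤ 2 * (A₂ * (A₁ * δ)) := by
    intro a
    rw [hcomm, map_sub]
    have g1 := (h2 _ _ (deg_dX (hGd a k) (Y a)) (hH a k) i q hq).1
    have g2 := (h2 _ _ (deg_dX (hGd a i) (Y a)) (hH a i) k q hq).1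
    have := abs_sub (eval q (pderiv i (dX (Y a) (G a k)))) (eval q (pderiv k (dX (Y a) (G a i))))
    linarith
  have hpd := fun j => pd_three hη hY hd hB j
  have hC : (crl f i k).IsHomogeneous (b - 1 - 1) := (hf i).pderiv.sub (hf k).pderiv
  have he := euler hC q
  have hb2 : (1 : ℝ) ≤ ((b - 1 - 1 : ℕ) : ℝ) := by exact_mod_cast (by omega : 1 ≤ b - 1 - 1)
  have h5 : |eval q (crl f i k)| ≤ |((b - 1 - 1 : ℕ) : ℝ) * eval q (crl f i k)| := by
    rw [abs_mul, abs_of_nonneg (by linarith : (0 : ℝ) ≤ ((b - 1 - 1 : ℕ) : ℝ))]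
    exact le_mul_of_one_le_left (abs_nonneg _) hb2
  refine h5.trans ?_
  rw [← he]
  refine (Finset.abs_sum_le_sum_abs _ _).trans ?_
  have h6 : ∀ j ∈ (Finset.univ : Finset (Fin 3)), |q j * eval q (pderiv j (crl f i k))| ≤
      4 * (18 * (2 * (A₂ * (A₁ * δ))) / η) := fun j _ => by
    rw [abs_mul]
    exact mul_le_mul (hq j) (hpd j) (abs_nonneg _) (by norm_num)
  refine (Finset.sum_le_sum h6).trans (le_of_eq ?_)
  rw [Finset.sum_const, Finset.card_univ, Fintype.card_fin, nsmul_eq_mul]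
  push_cast
  ring

/-- **The potential.** -/
theorem inv_pot (b : ℕ) (hb : 2 ≤ b) : ∃ A : ℝ, 1 ≤ A ∧ ∀ (v : V3) (Φ : Po) (f : Fin 3 → Po)
    (δ κ : ℝ), 0 ≤ δ → Bx 1 v → Φ.IsHomogeneous b → (∀ i, (f i).IsHomogeneous (b - 1)) →
    (∀ i, Inv v (pderiv i Φ) (f i) δ) → (∀ i k (q : V3), Bx 4 q → |eval q (crl f i k)| ≤ κ) →
    Inv v Φ (pot b f) (A * (δ + κ)) := by
  obtain ⟨A₁, hA₁, h1⟩ := inv_dX b
  obtain ⟨A₂, hA₂, h2⟩ := mkv4 b
  have hAA : 1 ≤ A₂ * A₁ := by nlinarith [mul_le_mul hA₂ hA₁ zero_le_one (by linarith)]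
  refine ⟨6 * (A₂ * A₁ + 9 * A₂), by nlinarith, ?_⟩
  intro v Φ f δ κ hδ hv hΦ hf hI hcrl
  have hκ : 0 ≤ κ := (abs_nonneg _).trans (hcrl 0 0 0 fun i => by simp)
  have hb0 : (0 : ℝ) < b := by exact_mod_cast (by omega : 0 < b)
  have hb1 : (1 : ℝ) ≤ b := by exact_mod_cast (by omega : 1 ≤ b)
  obtain ⟨G, hG⟩ : ∃ G : Fin 3 → Po, G = fun i => pderiv i Φ - f i := ⟨_, rfl⟩
  have hGd : ∀ i, (G i).totalDegree ≤ b := fun i => by
    have h3 : (G i).IsHomogeneous (b - 1) := by
      rw [hG]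
      exact hΦ.pderiv.sub (hf i)
    exact (h3.totalDegree_le).trans (Nat.sub_le _ _)
  have hH1 : ∀ i (q : V3), Bx 1 q → |eval q (dX v (G i))| ≤ A₁ * δ := fun i =>
    h1 v (G i) δ (hGd i) fun q hq s hs => by
      have h3 := hI i q hq s hs
      rw [hG]
      simp only [map_sub]
      exact h3
  have hH4 : ∀ i (q : V3), Bx 4 q → |eval q (dX v (G i))| ≤ A₂ * (A₁ * δ) := fun i q hq =>
    (h2 _ _ (deg_dX (hGd i) v) (hH1 i) 0 q hq).2
  -- the error
  obtain ⟨E, hE⟩ : ∃ E : Fin 3 → Po, E = fun k => C (1 / (b : ℝ)) * ∑ i, X i * crl f i k :=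
    ⟨_, rfl⟩
  have hEe : ∀ k (q : V3), eval q (E k) = 1 / b * ∑ i, q i * eval q (crl f i k) := fun k q => by
    rw [hE]
    simp only [map_mul, eval_C, map_sum, eval_X]
  have hpd : ∀ k, pderiv k (pot b f) = f k + E k := fun k => by
    refine MvPolynomial.funext fun q => ?_
    rw [map_add, pot_pd (by omega) hf k q, hEe]
  have hEh : ∀ k, (E k).totalDegree ≤ b := fun k => by
    have h3 : E k = pderiv k (pot b f) - f k := by rw [hpd]; ring
    rw [h3]
    have h4 : (pderiv k (pot b f) - f k).IsHomogeneous (b - 1) :=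
      (pot_hom (by omega) hf).pderiv.sub (hf k)
    exact (h4.totalDegree_le).trans (Nat.sub_le _ _)
  have hE1 : ∀ k (q : V3), Bx 1 q → |eval q (E k)| ≤ 3 * κ := fun k q hq => by
    rw [hEe, abs_mul, abs_of_pos (by positivity : (0 : ℝ) < 1 / b)]
    have h3 : |∑ i, q i * eval q (crl f i k)| ≤ 3 * κ := by
      refine (Finset.abs_sum_le_sum_abs _ _).trans ?_
      have h6 : ∀ j ∈ (Finset.univ : Finset (Fin 3)), |q j * eval q (crl f j k)| ≤ κ :=
        fun j _ => by
          rw [abs_mul]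
          calc |q j| * |eval q (crl f j k)| ≤ 1 * κ :=
                mul_le_mul (hq j) (hcrl j k q fun i => (hq i).trans (by norm_num)) (abs_nonneg _)
                  zero_le_one
            _ = κ := one_mul κ
      refine (Finset.sum_le_sum h6).trans (le_of_eq ?_)
      rw [Finset.sum_const, Finset.card_univ, Fintype.card_fin, nsmul_eq_mul]
      norm_num
    have h4 : 1 / (b : ℝ) ≤ 1 := (div_le_one hb0).2 hb1
    calc 1 / (b : ℝ) * |∑ i, q i * eval q (crl f i k)| ≤ 1 * (3 * κ) :=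
          mul_le_mul h4 h3 (abs_nonneg _) zero_le_one
      _ = 3 * κ := one_mul _
  have hE4 : ∀ k (q : V3), Bx 4 q → |eval q (dX v (E k))| ≤ 3 * (A₂ * (3 * κ)) := fun k q hq => by
    rw [eval_dX]
    refine (Finset.abs_sum_le_sum_abs _ _).trans ?_
    have h6 : ∀ j ∈ (Finset.univ : Finset (Fin 3)), |v j * eval q (pderiv j (E k))| ≤
        A₂ * (3 * κ) := fun j _ => by
      rw [abs_mul]
      calc |v j| * |eval q (pderiv j (E k))| ≤ 1 * (A₂ * (3 * κ)) :=
            mul_le_mul (hv j) (h2 _ _ (hEh k) (hE1 k) j q hq).1 (abs_nonneg _) zero_le_one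
        _ = A₂ * (3 * κ) := one_mul _
    refine (Finset.sum_le_sum h6).trans (le_of_eq ?_)
    rw [Finset.sum_const, Finset.card_univ, Fintype.card_fin, nsmul_eq_mul]
    norm_num
  -- the derivative of `Φ - pot f`
  have hN : (dX v (Φ - pot b f)).IsHomogeneous (b - 1) :=
    hom_dX (hΦ.sub (pot_hom (by omega) hf)) v
  have hb2 : (1 : ℝ) ≤ ((b - 1 : ℕ) : ℝ) := by exact_mod_cast (by omega : 1 ≤ b - 1)
  have hmain : ∀ q : V3, Bx 2 q → |eval q (dX v (Φ - pot b f))| ≤
      6 * (A₂ * A₁ + 9 * A₂) * (δ + κ) := by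
    intro q hq
    have hq4 : Bx 4 q := fun i => (hq i).trans (by norm_num)
    have he := euler hN q
    have h5 : |eval q (dX v (Φ - pot b f))| ≤
        |((b - 1 : ℕ) : ℝ) * eval q (dX v (Φ - pot b f))| := by
      rw [abs_mul, abs_of_nonneg (by linarith : (0 : ℝ) ≤ ((b - 1 : ℕ) : ℝ))]
      exact le_mul_of_one_le_left (abs_nonneg _) hb2
    refine h5.trans ?_
    rw [← he]
    refine (Finset.abs_sum_le_sum_abs _ _).trans ?_
    have h6 : ∀ j ∈ (Finset.univ : Finset (Fin 3)),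
        |q j * eval q (pderiv j (dX v (Φ - pot b f)))| ≤
        2 * (A₂ * (A₁ * δ) + 3 * (A₂ * (3 * κ))) := fun j _ => by
      have e1 : pderiv j (dX v (Φ - pot b f)) = dX v (G j) - dX v (E j) := by
        rw [dX_pd, map_sub, hpd, hG, ← dX_sub]
        congr 1
        ring
      rw [abs_mul, e1, map_sub]
      have h7 := abs_sub (eval q (dX v (G j))) (eval q (dX v (E j)))
      have h8 := hH4 j q hq4
      have h9 := hE4 j q hq4
      refine mul_le_mul (hq j) (h7.trans (add_le_add h8 h9)) (abs_nonneg _) (by norm_num)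
    refine (Finset.sum_le_sum h6).trans ?_
    rw [Finset.sum_const, Finset.card_univ, Fintype.card_fin, nsmul_eq_mul]
    push_cast
    have g1 : 0 ≤ A₂ * A₁ * κ := by positivity
    have g2 : 0 ≤ A₂ * δ := by positivity
    nlinarith
  intro q hq s hs
  have h3 := inv_of hv hmain q hq s hs
  simp only [map_sub] at h3
  exact h3

end Pool.EJ13
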