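import Pool.Agent.H98.STB.End3
import Pool.Agent.H19.STB.RefG

/-!
# Derivatives of the polynomials of the chains of lines

`dX`: the derivative in a direction. `inv_dX`: the derivative of `Φ - f` in the direction in which it
is nearly constant. `inv_of`: conversely.
-/

set_option autoImplicit false

namespace Pool.EJ13

open Finset Real MvPolynomial
open Pool.STB
open Pool.BFL (CB)

theorem pd_comm (i j : Fin 3) (Φ : Po) : pderiv i (pderiv j Φ) = pderiv j (pderiv i Φ) := by
  classical
  induction Φ using MvPolynomial.induction_on with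
  | C a => simp
  | add p q hp hq => rw [map_add, map_add, map_add, map_add, hp, hq]
  | mul_X p k hp =>
    have h1 : ∀ (i j : Fin 3), pderiv i (pderiv j (X k : Po)) = 0 := by
      intro i j
      rw [pderiv_X]
      by_cases h : k = j
      · rw [h, Pi.single_eq_same, pderiv_one]
      · rw [Pi.single_eq_of_ne h, map_zero]
    rw [pderiv_mul, pderiv_mul, map_add, map_add, pderiv_mul, pderiv_mul, pderiv_mul, pderiv_mul,
      hp, h1 i j, h1 j i]
    ring

/-- The derivative in the direction `v`. -/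
noncomputable def dX (v : V3) (P : Po) : Po := ∑ j, C (v j) * pderiv j P

theorem eval_dX (v : V3) (P : Po) (q : V3) :
    eval q (dX v P) = ∑ j, v j * eval q (pderiv j P) := by
  unfold dX
  rw [map_sum]
  exact Finset.sum_congr rfl fun j _ => by rw [map_mul, eval_C]

theorem dX_pd (v : V3) (k : Fin 3) (P : Po) : pderiv k (dX v P) = dX v (pderiv k P) := by
  unfold dX
  rw [map_sum]
  exact Finset.sum_congr rfl fun j _ => by rw [pderiv_C_mul, pd_comm]

theorem dX_sub (v : V3) (P Q : Po) : dX v (P - Q) = dX v P - dX v Q := by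
  unfold dX
  rw [← Finset.sum_sub_distrib]
  exact Finset.sum_congr rfl fun j _ => by rw [map_sub, mul_sub]

theorem dX_add (v : V3) (P Q : Po) : dX v (P + Q) = dX v P + dX v Q := by
  unfold dX
  rw [← Finset.sum_add_distrib]
  exact Finset.sum_congr rfl fun j _ => by rw [map_add, mul_add]

theorem dX_C_mul (v : V3) (a : ℝ) (P : Po) : dX v (C a * P) = C a * dX v P := by
  unfold dX
  rw [Finset.mul_sum]
  exact Finset.sum_congr rfl fun j _ => by rw [pderiv_C_mul]; ring

theorem deg_pd {P : Po} {K : ℕ} (h : P.totalDegree ≤ K) (j : Fin 3) :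
    (pderiv j P).totalDegree ≤ K := Pool.POLY.totalDegree_pderiv P j h

theorem deg_dX {P : Po} {K : ℕ} (h : P.totalDegree ≤ K) (v : V3) : (dX v P).totalDegree ≤ K := by
  refine (totalDegree_finsetSum _ _).trans (Finset.sup_le fun j _ => ?_)
  refine (totalDegree_mul _ _).trans ?_
  rw [totalDegree_C, zero_add]
  exact deg_pd h j

theorem hom_dX {P : Po} {b : ℕ} (h : P.IsHomogeneous b) (v : V3) :
    (dX v P).IsHomogeneous (b - 1) :=
  IsHomogeneous.sum _ _ _ fun j _ => by
    have h1 := (isHomogeneous_C (Fin 3) (v j)).mul (h.pderiv (i := j))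
    rwa [zero_add] at h1

/-- The derivative along a line. -/
theorem line_der (a v : V3) (P : Po) (t : ℝ) :
    HasDerivAt (fun s : ℝ => eval (a + s • v) P) (eval (a + t • v) (dX v P)) t := by
  induction P using MvPolynomial.induction_on with
  | C c =>
    have e : eval (a + t • v) (dX v (C c : Po)) = 0 := by
      rw [eval_dX]
      refine Finset.sum_eq_zero fun j _ => ?_
      rw [pderiv_C, map_zero, mul_zero]
    rw [e]
    simp only [eval_C]
    exact hasDerivAt_const t c
  | add p q hp hq =>
    rw [dX_add, map_add]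
    simp only [map_add]
    exact hp.add hq
  | mul_X p i hp =>
    have h1 : HasDerivAt (fun s : ℝ => (a + s • v) i) (v i) t := by
      have h2 : HasDerivAt (fun s : ℝ => a i + s * v i) (1 * v i) t :=
        ((hasDerivAt_id t).mul_const (v i)).const_add (a i)
      rw [one_mul] at h2
      exact h2
    have h3 := hp.mul h1
    have e : eval (a + t • v) (dX v (p * X i)) =
        eval (a + t • v) (dX v p) * (a + t • v) i + eval (a + t • v) p * v i := by
      rw [eval_dX, eval_dX, Finset.sum_mul]
      have e2 : ∀ j, v j * eval (a + t • v) (pderiv j (p * X i)) =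
          v j * eval (a + t • v) (pderiv j p) * (a + t • v) i +
          (if j = i then eval (a + t • v) p * v j else 0) := by
        intro j
        rw [pderiv_mul, map_add, map_mul, map_mul, eval_X]
        by_cases hj : j = i
        · rw [if_pos hj, hj, pderiv_X_self, map_one]
          ring
        · rw [if_neg hj, pderiv_X_of_ne (fun h => hj h.symm), map_zero]
          ring
      rw [Finset.sum_congr rfl fun j _ => e2 j, Finset.sum_add_distrib, Finset.sum_ite_eq']
      simp
    rw [e]
    refine h3.congr_of_eventuallyEq ?_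
    exact Filter.Eventually.of_forall fun s => by
      show eval (a + s • v) (p * X i) = _
      rw [map_mul, eval_X]
      rfl

/-- Euler's identity at a point. -/
theorem euler {P : Po} {b : ℕ} (h : P.IsHomogeneous b) (q : V3) :
    ∑ i, q i * eval q (pderiv i P) = b * eval q P := by
  have h1 := congrArg (eval q) h.sum_X_mul_pderiv
  rw [map_sum, map_nsmul, nsmul_eq_mul] at h1
  rw [← h1]
  exact Finset.sum_congr rfl fun i _ => by rw [map_mul, eval_X]

/-- Markov on the box of size `4`, from the values on the unit box. -/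
theorem mkv4 (b : ℕ) : ∃ A : ℝ, 1 ≤ A ∧ ∀ (P : Po) (R : ℝ), P.totalDegree ≤ b →
    (∀ q : V3, Bx 1 q → |eval q P| ≤ R) → ∀ (j : Fin 3) (r : V3), Bx 4 r →
      |eval r (pderiv j P)| ≤ A * R ∧ |eval r P| ≤ A * R := by
  obtain ⟨C, hC, h⟩ := Pool.Agent.H36.KBX.coef_bound 3 b
  have hC3 : (0 : ℝ) ≤ (b + 1) ^ 3 * (b * C * 4 ^ b) := by positivity
  have hC4 : (0 : ℝ) ≤ (b + 1) ^ 3 * (C * 4 ^ b) := by positivity
  refine ⟨(b + 1) ^ 3 * (b * C * 4 ^ b) + (b + 1) ^ 3 * (C * 4 ^ b) + 1, by linarith,
    fun P R hP hR j r hr => ?_⟩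
  have hR0 : 0 ≤ R := (abs_nonneg _).trans (hR 0 fun i => by simp)
  have h1 : CB P (C * R) := h P R hP hR
  have h2 := Pool.STAT.cb_pderiv (by positivity : 0 ≤ C * R) hP h1 j
  have h3 := Pool.POLY.abs_eval_le (pderiv j P) (Pool.POLY.totalDegree_pderiv P j hP) h2
    (by norm_num : (1 : ℝ) ≤ 4) r hr
  have h4 := Pool.POLY.abs_eval_le P hP h1 (by norm_num : (1 : ℝ) ≤ 4) r hr
  have e1 : 0 ≤ (b + 1) ^ 3 * (b * C * 4 ^ b) * R := by positivity
  have e2 : 0 ≤ (b + 1) ^ 3 * (C * 4 ^ b) * R := by positivity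
  constructor
  · refine h3.trans ?_
    nlinarith
  · refine h4.trans ?_
    nlinarith

/-- The derivative in the direction of near constancy. -/
theorem inv_dX (b : ℕ) : ∃ A : ℝ, 1 ≤ A ∧ ∀ (v : V3) (G : Po) (δ : ℝ), G.totalDegree ≤ b →
    (∀ q : V3, Bx 1 q → ∀ s : ℝ, |s| ≤ 1 → |eval (q + s • v) G - eval q G| ≤ δ) →
    ∀ q : V3, Bx 1 q → |eval q (dX v G)| ≤ A * δ := by
  obtain ⟨C, hC, h⟩ := Pool.Agent.H40.BFL.unit_markov b
  refine ⟨C, hC, fun v G δ hG hI q hq => ?_⟩
  obtain ⟨r, hr⟩ : ∃ r : Polynomial ℝ, r = ln q v G - Polynomial.C (eval q G) := ⟨_, rfl⟩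
  have hrd : r.natDegree ≤ b := by
    rw [hr]
    refine (Polynomial.natDegree_sub_le _ _).trans (max_le (ln_deg _ _ hG) ?_)
    rw [Polynomial.natDegree_C]
    exact Nat.zero_le _
  have hfn : ∀ t : ℝ, (fun j => q j + t * v j) = q + t • v := fun t => by
    funext j
    rfl
  have he : ∀ t : ℝ, r.eval t = eval (q + t • v) G - eval q G := fun t => by
    rw [hr, Polynomial.eval_sub, Polynomial.eval_C, ln_eval, hfn]
  have h1 := h r δ hrd (fun t ht => by
    rw [he]
    exact hI q hq t (by rw [abs_of_nonneg ht.1]; exact ht.2)) 0 ⟨le_rfl, zero_le_one⟩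
  have h2 : HasDerivAt (fun s : ℝ => eval (q + s • v) G - eval q G)
      (eval (q + (0 : ℝ) • v) (dX v G)) 0 := (line_der q v G 0).sub_const _
  have h3 := r.hasDerivAt 0
  have e : (fun s : ℝ => eval (q + s • v) G - eval q G) = fun s => r.eval s := by
    funext s
    exact (he s).symm
  rw [e] at h2
  have h4 := h3.unique h2
  rw [zero_smul, add_zero] at h4
  rw [← h4]
  exact h1

/-- A small derivative in a direction. -/
theorem inv_of {v : V3} {G : Po} {κ : ℝ} (hv : Bx 1 v)
    (h : ∀ q : V3, Bx 2 q → |eval q (dX v G)| ≤ κ) :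
    ∀ q : V3, Bx 1 q → ∀ s : ℝ, |s| ≤ 1 → |eval (q + s • v) G - eval q G| ≤ κ := by
  intro q hq s hs
  have hκ : 0 ≤ κ := (abs_nonneg _).trans (h 0 fun i => by simp)
  have h1 := (convex_segment (𝕜 := ℝ) (0 : ℝ) s).norm_image_sub_le_of_norm_hasDerivWithin_le
    (f := fun t : ℝ => eval (q + t • v) G) (f' := fun t => eval (q + t • v) (dX v G)) (C := κ)
    (fun t _ => (line_der q v G t).hasDerivWithinAt) (fun t ht => by
      rw [Real.norm_eq_abs]
      refine h _ fun i => ?_
      have ht1 : |t| ≤ 1 := by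
        rw [segment_eq_uIcc] at ht
        have h2 := Set.abs_sub_left_of_mem_uIcc ht
        rw [sub_zero, sub_zero] at h2
        exact h2.trans hs
      have h3 : |t * v i| ≤ 1 := by
        rw [abs_mul]
        calc |t| * |v i| ≤ 1 * 1 := mul_le_mul ht1 (hv i) (abs_nonneg _) zero_le_one
          _ = 1 := one_mul 1
      have h4 : (q + t • v) i = q i + t * v i := rfl
      rw [h4]
      have := hq i
      rw [abs_le] at *
      constructor <;> linarith [h3.1, h3.2, this.1, this.2]) (left_mem_segment ℝ _ _)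
    (right_mem_segment ℝ _ _)
  rw [zero_smul, add_zero, sub_zero, Real.norm_eq_abs, Real.norm_eq_abs] at h1
  exact h1.trans (mul_le_of_le_one_right hκ hs)

end Pool.EJ13
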