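import Pool.Agent.H13.EJ.Chh

/-!
# The end for degree at least three, from the derivatives

`EndJStmt`: if the derivatives of the label of a record are not full given the position (nothing is
assumed on the label itself), then `Φ` may be replaced by a homogeneous polynomial which is a function
of the record, as in `EndStmt`. `t_endJ`: this holds unconditionally.
-/

set_option autoImplicit false

namespace Pool.EJ13

open Finset Real MvPolynomial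
open Pool.Agent.H49.Ent Pool.Agent.H32.Dense Pool.STK Pool.MIC
open Pool.STB
open Pool.BFL (Pb CB)

/-- Three events. -/
theorem Pb_fin3 {Ω : Type} [Fintype Ω] {p : Ω → ℝ} (hp : ∀ ω, 0 ≤ p ω) {G : Fin 3 → Ω → Prop}
    {c : ℝ} (h : ∀ i, Pb p (fun ω => ¬ G i ω) ≤ c) : Pb p (fun ω => ¬ ∀ i, G i ω) ≤ 3 * c := by
  have h1 : Pb p (fun ω => ¬ ∀ i, G i ω) ≤
      Pb p (fun ω => (¬ G 0 ω ∨ ¬ G 1 ω) ∨ ¬ G 2 ω) := by
    refine Pb_mono hp fun ω _ hn => ?_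
    by_contra hc
    simp only [not_or, not_not] at hc
    refine hn fun i => ?_
    fin_cases i
    · exact hc.1.1
    · exact hc.1.2
    · exact hc.2
  have h2 := Pb_or hp (fun ω => ¬ G 0 ω ∨ ¬ G 1 ω) (fun ω => ¬ G 2 ω)
  have h3 := Pb_or hp (fun ω => ¬ G 0 ω) (fun ω => ¬ G 1 ω)
  linarith [h 0, h 1, h 2]

/-- **From the stars of the derivatives.** -/
theorem pp_of_grad (b : ℕ) (hb : 3 ≤ b) (A : ℝ) (hA : 1 ≤ A) : ∃ C' : ℝ, 1 ≤ C' ∧
    ∀ {Ω Λ Z : Type} [Fintype Ω]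
    {p : Ω → ℝ} (_ : IsLaw p) (L : Ω → Λ) (z : Ω → Z) (t : Ω → ℤ) (Y : Ω → V3) (Ψ : Ω → Po)
    (x : Z → V3) (J : Z → Po) {M : ℕ} {K η δ c c₁ : ℝ},
    1 ≤ M → 1 ≤ K → K ≤ M → 0 < η → η ≤ 1 → 0 ≤ δ → 0 ≤ c₁ →
    (∀ ω ω', 0 < p ω → 0 < p ω' → L ω = L ω' → Y ω = Y ω' ∧ Ψ ω = Ψ ω') →
    (∀ ω, 0 < p ω → |t ω| ≤ (M : ℤ)) →
    (∀ ω, Bx 1 (Y ω)) → (∀ ω, Hb b 1 (Ψ ω)) →
    (∀ i ω, Hb (b - 1) 1 (C (1 / A) * pderiv i (Ψ ω))) → (∀ r, Bx 1 (x r)) →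
    (∀ ω ω', 0 < p ω → 0 < p ω' → L ω = L ω' →
      Bx (K / M) (x (z ω') - x (z ω) - (((t ω' : ℝ) - t ω) / M) • Y ω)) →
    (∀ ω ω', 0 < p ω → 0 < p ω' → L ω = L ω' → ∀ q, Bx 4 q →
      |(eval q (J (z ω')) + eval (q - x (z ω')) (Ψ ω)) -
        (eval q (J (z ω)) + eval (q - x (z ω)) (Ψ ω))| ≤ K / M) →
    (∀ H : Z → V3, (∀ r, Bx 1 (H r) ∧ ∃ i, |H r i| = 1) →
      Pb p (fun ω => |∑ i, H (z ω) i * Y ω i| ≤ η) ≤ c) →
    (∀ i : Fin 3, Pb (Q6 p L z) (fun w => ¬ (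
      η ^ 4 ≤ |(mt ![Y w.1.1.1.1.2, Y w.1.1.2, Y w.2]).det| ∧
      Inv (Y w.1.1.1.1.1) (C (1 / A) * pderiv i (Ψ w.1.1.1.1.1))
        (fb ![Y w.1.1.1.1.2, Y w.1.1.2, Y w.2] ![C (1 / A) * pderiv i (Ψ w.1.1.1.1.2),
          C (1 / A) * pderiv i (Ψ w.1.1.2), C (1 / A) * pderiv i (Ψ w.2)]) δ)) ≤ c₁) →
    ∃ f : Z → Po, (∀ r, Hb b (C' / η ^ (4 * b)) (f r)) ∧
      Pb (glue p p L L) (fun w => ¬ ∀ q, Bx 1 q →
        |(eval q (J (z w.1)) + eval (q - x (z w.1)) (f (z w.1))) -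
          (eval q (J (z w.2)) + eval (q - x (z w.2)) (f (z w.2)))| ≤
            C' * (δ + K / M) / η ^ (4 * b)) ≤ 51 * c₁ + 21 * c := by
  obtain ⟨C₁, hC₁, h1⟩ := f_of_star (b - 1) (by omega)
  obtain ⟨C₂, hC₂, h2⟩ := pp_const b
  obtain ⟨A₁, hA₁, hcrl⟩ := curl_small b hb
  obtain ⟨A₂, hA₂, hpot⟩ := inv_pot b (by omega)
  have hA0 : 0 < A := by linarith
  have q1 : 1 ≤ A * C₁ := by nlinarith
  have q2 : 1 ≤ A₂ * A * (1 + A₁) := by
    have : 1 ≤ A₂ * A := by nlinarith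
    nlinarith
  obtain ⟨D', hD'⟩ : ∃ D' : ℝ, D' = A₂ * A * (1 + A₁) + 6 * A * C₁ := ⟨_, rfl⟩
  have hD1 : 1 ≤ D' := by rw [hD']; nlinarith
  refine ⟨C₂ * D', by nlinarith, ?_⟩
  intro Ω Λ Z _ p hp L z t Y Ψ x J M K η δ c c₁ hM hK hKM hη hη1 hδ hc₁ hL htM hY hΨ hΨi hx hpos
    hjet gp hst
  have hg := fun i : Fin 3 => h1 hp L z Y (fun ω => C (1 / A) * pderiv i (Ψ ω)) hη hη1 hδ
    (fun ω ω' a b e => ⟨(hL ω ω' a b e).1, by rw [(hL ω ω' a b e).2]⟩) hY (hΨi i) gp (hst i)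
  choose g hg1 hg2 hg3 using hg
  -- the polynomials of the derivatives
  obtain ⟨F, hF⟩ : ∃ F : Z → Fin 3 → Po, F = fun r i => C A * g i r := ⟨_, rfl⟩
  have hFe : ∀ r i q, eval q (F r i) = A * eval q (g i r) := fun r i q => by
    rw [hF]
    simp only [map_mul, eval_C]
  have hFh : ∀ r i, (F r i).IsHomogeneous (b - 1) := fun r i => by
    rw [hF]
    have h3 := (isHomogeneous_C (Fin 3) A).mul (hg1 i r).hom
    rwa [zero_add] at h3
  have hP : 0 < η ^ (4 * b) := by positivity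
  have hP1 : η ^ (4 * b) ≤ 1 := pow_le_one₀ hη.le hη1
  have hP' : 0 < η ^ (4 * (b - 1)) := by positivity
  have hPP : η ^ (4 * b) ≤ η ^ (4 * (b - 1)) := pow_le_pow_of_le_one hη.le hη1 (by omega)
  have hP3 : η ^ (4 * b) ≤ η ^ 3 := pow_le_pow_of_le_one hη.le hη1 (by omega)
  have hM0 : (0 : ℝ) < M := by exact_mod_cast hM
  have hb0 : (0 : ℝ) < b := by exact_mod_cast (by omega : 0 < b)
  have hb3 : (3 : ℝ) ≤ b := by exact_mod_cast hb
  have hCC1 : C₁ / η ^ (4 * (b - 1)) ≤ C₁ / η ^ (4 * b) :=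
    div_le_div_of_nonneg_left (by linarith) hP hPP
  -- the potential is controlled by its polynomials
  have hpotb : ∀ (u : Fin 3 → Po) (q : V3) (B : ℝ), Bx 1 q → (∀ i, |eval q (u i)| ≤ B) →
      |eval q (pot b u)| ≤ B := by
    intro u q B hq hu
    have hB : 0 ≤ B := (abs_nonneg _).trans (hu 0)
    unfold pot
    rw [map_mul, eval_C, map_sum, abs_mul, abs_of_pos (by positivity : (0 : ℝ) < 1 / b)]
    have h3 : |∑ i, eval q (X i * u i)| ≤ 3 * B := by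
      refine (Finset.abs_sum_le_sum_abs _ _).trans ?_
      have h4 : ∀ i ∈ (Finset.univ : Finset (Fin 3)), |eval q (X i * u i)| ≤ B := fun i _ => by
        rw [map_mul, eval_X, abs_mul]
        calc |q i| * |eval q (u i)| ≤ 1 * B := mul_le_mul (hq i) (hu i) (abs_nonneg _) zero_le_one
          _ = B := one_mul B
      refine (Finset.sum_le_sum h4).trans (le_of_eq ?_)
      rw [Finset.sum_const, Finset.card_univ, Fintype.card_fin, nsmul_eq_mul]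
      norm_num
    rw [one_div, inv_mul_le_iff₀ hb0]
    nlinarith
  obtain ⟨f, hf⟩ : ∃ f : Z → Po, f = fun r => pot b (F r) := ⟨_, rfl⟩
  have hfH : ∀ r, Hb b (A * C₁ / η ^ (4 * b)) (f r) := fun r => by
    rw [hf]
    refine ⟨pot_hom (by omega) (hFh r), fun q hq => hpotb _ q _ hq fun i => ?_⟩
    rw [hFe, abs_mul, abs_of_pos hA0, mul_div_assoc]
    exact mul_le_mul_of_nonneg_left (((hg1 i r).bd q hq).trans hCC1) hA0.le
  -- the events
  obtain ⟨Gd, hGd⟩ : ∃ Gd : Ω → Prop, Gd = fun ω =>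
    ∀ i, Inv (Y ω) (pderiv i (Ψ ω)) (F (z ω) i) (A * δ) := ⟨_, rfl⟩
  obtain ⟨Cz, hCz⟩ : ∃ Cz : Z → Prop, Cz = fun r =>
    ∀ i k (q : V3), Bx 4 q → |eval q (crl (F r) i k)| ≤ A₁ * (A * δ) / η ^ 3 := ⟨_, rfl⟩
  have hGdp : Pb p (fun ω => ¬ Gd ω) ≤ 3 * c₁ := by
    rw [hGd]
    refine Pb_fin3 hp.nonneg fun i => (Pb_mono hp.nonneg fun ω _ hn hI => hn ?_).trans (hg2 i)
    intro q hq s hs
    have h3 := hI q hq s hs
    simp only [map_mul, eval_C] at h3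
    rw [hFe, hFe]
    have e : eval (q + s • Y ω) (pderiv i (Ψ ω)) - A * eval (q + s • Y ω) (g i (z ω)) -
        (eval q (pderiv i (Ψ ω)) - A * eval q (g i (z ω))) =
        A * (1 / A * eval (q + s • Y ω) (pderiv i (Ψ ω)) - eval (q + s • Y ω) (g i (z ω)) -
          (1 / A * eval q (pderiv i (Ψ ω)) - eval q (g i (z ω)))) := by
      field_simp
    rw [e, abs_mul, abs_of_pos hA0]
    exact mul_le_mul_of_nonneg_left h3 hA0.le
  have hCzp : Pb p (fun ω => ¬ Cz (z ω)) ≤ 9 * c₁ + 3 * c := by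
    have h3 := star_cmp hp L z Y hη gp (fun _ => True) Gd (fun br => Cz (z br.1.1.1.1))
      (c₁ := 0) (c₂ := 3 * c₁) (by
        refine le_of_eq ?_
        unfold Pb
        simp) hGdp (by
        intro u u' u'' br e1 e2 e3 _ _ _ d1 d2 d3 hdet
        rw [hGd] at d1 d2 d3
        rw [hCz]
        refine hcrl ![Y u, Y u', Y u''] ![Ψ u, Ψ u', Ψ u''] (F (z br.1.1.1.1)) (η ^ 3) (A * δ)
          (by positivity) (by positivity) (fun a => by fin_cases a <;> exact hY _) hdet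
          (fun a => by fin_cases a <;> exact (hΨ _).hom) (hFh _) (fun a i => ?_)
        fin_cases a
        · have := d1 i
          rw [e1] at this
          exact this
        · have := d2 i
          rw [e2] at this
          exact this
        · have := d3 i
          rw [e3] at this
          exact this)
    have h4 := Marg.Pb_eq (R5_one hp L z) (fun ω => ¬ Cz (z ω))
    rw [← h4]
    refine h3.trans (le_of_eq ?_)
    ring
  -- `Φ - f` is nearly constant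
  obtain ⟨δ₂, hδ₂⟩ : ∃ δ₂ : ℝ, δ₂ = A₂ * (A * δ + A₁ * (A * δ) / η ^ 3) := ⟨_, rfl⟩
  have hδ₂0 : 0 ≤ δ₂ := by rw [hδ₂]; positivity
  have hInv : Pb p (fun ω => ¬ Inv (Y ω) (Ψ ω) (f (z ω)) δ₂) ≤ 12 * c₁ + 3 * c := by
    have h3 := Pb_le2 (p := p) hp.nonneg (A := fun ω => ¬ Inv (Y ω) (Ψ ω) (f (z ω)) δ₂)
      (B := fun ω => ¬ Gd ω) (C := fun ω => ¬ Cz (z ω)) (fun ω _ a1 a2 a3 => a3 (by
        rw [not_not] at a1 a2
        rw [hGd] at a1
        rw [hCz] at a2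
        rw [hf, hδ₂]
        exact hpot (Y ω) (Ψ ω) (F (z ω)) (A * δ) _ (by positivity) (hY ω) (hΨ ω).hom (hFh _) a1
          a2))
    linarith
  have hn := (R2_law hp L).nonneg
  have k1 : Pb (R2 p L) (fun w => ¬ Inv (Y w.1) (Ψ w.1) (f (z w.1)) δ₂) ≤ 12 * c₁ + 3 * c := by
    rw [Marg.Pb_eq (R2_f hp L) (fun ω => ¬ Inv (Y ω) (Ψ ω) (f (z ω)) δ₂)]
    exact hInv
  have k3 : Pb (R2 p L) (fun w => ¬ ∀ q, Bx 1 q →
      |eval q (f (z w.1)) - eval q (f (z w.2))| ≤ A * (C₁ * δ / η ^ (4 * b))) ≤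
      3 * (13 * c₁ + 6 * c) := by
    have h3 : Pb (R2 p L) (fun w => ¬ ∀ i : Fin 3, ∀ q, Bx 1 q →
        |eval q (g i (z w.1)) - eval q (g i (z w.2))| ≤ C₁ * δ / η ^ (4 * (b - 1))) ≤
        3 * (13 * c₁ + 6 * c) := Pb_fin3 hn fun i => hg3 i
    refine (Pb_mono hn fun w _ hn' hI => hn' fun q hq => ?_).trans h3
    have e : eval q (f (z w.1)) - eval q (f (z w.2)) =
        eval q (pot b fun i => F (z w.1) i - F (z w.2) i) := by
      rw [hf]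
      unfold pot
      simp only [map_mul, eval_C, map_sum, map_sub, eval_X]
      rw [← mul_sub, ← Finset.sum_sub_distrib]
      congr 1
      exact Finset.sum_congr rfl fun i _ => by ring
    rw [e]
    refine hpotb _ q _ hq fun i => ?_
    rw [map_sub, hFe, hFe, ← mul_sub, abs_mul, abs_of_pos hA0]
    refine mul_le_mul_of_nonneg_left ((hI i q hq).trans ?_) hA0.le
    exact div_le_div_of_nonneg_left (by positivity) hP hPP
  refine ⟨f, fun r => hb_mono (hfH r) ?_, ?_⟩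
  · refine div_le_div_of_nonneg_right ?_ hP.le
    have : A * C₁ ≤ D' := by rw [hD']; nlinarith
    nlinarith
  have k2 : Pb (R2 p L) (fun w => ¬ ∀ q, Bx 1 q →
        |(eval q (J (z w.1)) + eval (q - x (z w.1)) (f (z w.1))) -
          (eval q (J (z w.2)) + eval (q - x (z w.2)) (f (z w.2)))| ≤
            C₂ * D' * (δ + K / M) / η ^ (4 * b)) ≤
      Pb (R2 p L) (fun w => ¬ Inv (Y w.1) (Ψ w.1) (f (z w.1)) δ₂) +
      Pb (R2 p L) (fun w => ¬ ∀ q, Bx 1 q →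
        |eval q (f (z w.1)) - eval q (f (z w.2))| ≤ A * (C₁ * δ / η ^ (4 * b))) := by
    refine Pb_le2 hn fun w hw a1 a2 a3 => a3 ?_
    rw [not_not] at a1 a2
    obtain ⟨p1, p2, eL⟩ := (glue_pos_iff hp.nonneg hp.nonneg w).mp hw
    obtain ⟨s, hs⟩ : ∃ s : ℝ, s = ((t w.2 : ℝ) - t w.1) / M := ⟨_, rfl⟩
    obtain ⟨e, he⟩ : ∃ e : V3, e = x (z w.2) - x (z w.1) - s • Y w.1 := ⟨_, rfl⟩
    have hs2 : |s| ≤ 2 := by
      have t1 : |(t w.1 : ℝ)| ≤ M := by exact_mod_cast htM _ p1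
      have t2 : |(t w.2 : ℝ)| ≤ M := by exact_mod_cast htM _ p2
      rw [hs, abs_div, abs_of_pos hM0, div_le_iff₀ hM0]
      have := abs_sub (t w.2 : ℝ) (t w.1 : ℝ)
      linarith
    have hR : 1 ≤ A * C₁ / η ^ (4 * b) := by
      rw [le_div_iff₀ hP]
      linarith
    have hKM' : K / M ≤ 1 := (div_le_one hM0).2 hKM
    have hKM0 : 0 < K / M := by positivity
    have h3 := h2 (Y w.1) (x (z w.1)) (x (z w.2)) e (Ψ w.1) (J (z w.1)) (J (z w.2)) (f (z w.1))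
      (f (z w.2)) s δ₂ (K / M) (A * C₁ / η ^ (4 * b)) (A * (C₁ * δ / η ^ (4 * b))) hδ₂0 hKM0
      hKM' hR hs2 (hY _) (hx _) (hx _) (by rw [he]; abel) (by
        have := hpos w.1 w.2 p1 p2 eL
        rw [← hs, ← he] at this
        exact this) (hΨ _) (hfH _) (hfH _).hom (fun q hq => hjet w.1 w.2 p1 p2 eL q hq) a1 a2
    intro q hq
    refine (h3 q hq).trans ?_
    have e1 : C₂ * D' * (δ + K / M) / η ^ (4 * b) =
        C₂ * ((D' * (δ + K / M)) / η ^ (4 * b)) := by ring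
    rw [e1]
    refine mul_le_mul_of_nonneg_left ?_ (by linarith)
    rw [le_div_iff₀ hP]
    have e2 : (δ₂ + A * C₁ / η ^ (4 * b) * (K / M) + A * (C₁ * δ / η ^ (4 * b))) * η ^ (4 * b) =
        δ₂ * η ^ (4 * b) + A * C₁ * (K / M) + A * C₁ * δ := by
      field_simp
    rw [e2]
    have e3 : δ₂ * η ^ (4 * b) ≤ A₂ * A * (1 + A₁) * δ := by
      rw [hδ₂]
      have e6 : A₂ * (A * δ + A₁ * (A * δ) / η ^ 3) * η ^ (4 * b) =
          A₂ * (A * δ * η ^ (4 * b) + A₁ * (A * δ) * (η ^ (4 * b) / η ^ 3)) := by ring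
      rw [e6]
      have e7 : η ^ (4 * b) / η ^ 3 ≤ 1 := (div_le_one (by positivity)).2 hP3
      have e8 : A * δ * η ^ (4 * b) ≤ A * δ := mul_le_of_le_one_right (by positivity) hP1
      have e9 : A₁ * (A * δ) * (η ^ (4 * b) / η ^ 3) ≤ A₁ * (A * δ) :=
        mul_le_of_le_one_right (by positivity) e7
      calc A₂ * (A * δ * η ^ (4 * b) + A₁ * (A * δ) * (η ^ (4 * b) / η ^ 3)) ≤
            A₂ * (A * δ + A₁ * (A * δ)) := mul_le_mul_of_nonneg_left (add_le_add e8 e9)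
              (by linarith)
        _ = A₂ * A * (1 + A₁) * δ := by ring
    have e4 : 0 ≤ A₂ * A * (1 + A₁) * (K / M) := by positivity
    have e5 : 0 ≤ A * C₁ * (K / M) := by positivity
    have e10 : 0 ≤ A * C₁ * δ := by positivity
    rw [hD']
    nlinarith
  show Pb (R2 p L) _ ≤ _
  linarith

/-- **The end from the derivatives.** -/
def EndJStmt : Prop := ∀ (b : ℕ) (h c' : ℝ), 3 ≤ b → 0 < h → 0 < c' →
  ∃ γ : ℝ, 0 < γ ∧ ∀ κ : ℝ, 0 < κ → ∃ γ₀ e₀ c R : ℝ, ∃ M₀ : ℕ, 0 < γ₀ ∧ γ₀ ≤ κ ∧ 0 < e₀ ∧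
  0 < c ∧ 0 < R ∧
  ∀ (M : ℕ), M₀ ≤ M → ∀ (Ω Λ Z Y 𝒟 : Type) [Fintype Ω] (p : Ω → ℝ) (L : Ω → Λ) (z : Ω → Z)
    (y : Ω → Y) (t : Ω → ℤ) (D : Λ → 𝒟) (X : 𝒟 → V3) (Φ : 𝒟 → Po) (x : Z → V3) (J : Z → Po)
    (h' R' : ℝ),
    ChH p L z y t D X Φ x J b M ((M : ℝ) ^ e₀) (e₀ * Real.log M) h' R' ((M : ℝ) ^ (-γ₀)) c →
    (∀ (i : Fin 3) (q : Ω → ℝ), IsLaw q → (∀ ω, q ω ≤ R * p ω) →
      CH q (fun ω => ⌊(M : ℝ) * eval (x (z ω)) (pderiv i (J (z ω)))⌋)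
        (fun ω => (cv M (x (z ω)), y ω)) ≤ (1 - h) * Real.log M + e₀ * Real.log M) →
    ∃ f : Z → Po, (∀ r, Hb b ((M : ℝ) ^ κ) (f r)) ∧
      Pb (glue p p L L) (fun w => ¬ ∀ q, Bx 1 q →
        |(eval q (J (z w.1)) + eval (q - x (z w.1)) (f (z w.1))) -
          (eval q (J (z w.2)) + eval (q - x (z w.2)) (f (z w.2)))| ≤ (M : ℝ) ^ (-γ)) ≤ c'

/-- **The end from the derivatives, unconditionally.** -/
theorem t_endJ : EndJStmt := by
  intro b h c' hb hh hc'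
  have hb1 : (1 : ℝ) ≤ b := by exact_mod_cast (by omega : 1 ≤ b)
  obtain ⟨A, hA, hder⟩ := chh_deriv (b - 1)
  have hbb : b - 1 + 1 = b := by omega
  rw [hbb] at hder
  obtain ⟨C', hC', hpp⟩ := pp_of_grad b hb A hA
  obtain ⟨γ, γ₁, hγ, hγ₁, hS⟩ := Pool.CHN76.star (b - 1) h (c' / 102) (by omega) hh (by positivity)
  -- the exponents
  obtain ⟨g, hg⟩ : ∃ g : ℝ, g = min γ (1 / 2) := ⟨_, rfl⟩
  have hg0 : 0 < g := by
    rw [hg]
    exact lt_min hγ (by norm_num)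
  have hgγ : g ≤ γ := by rw [hg]; exact min_le_left _ _
  have hg2 : g ≤ 1 / 2 := by rw [hg]; exact min_le_right _ _
  refine ⟨g / 4, by positivity, fun κ hκ => ?_⟩
  obtain ⟨γ₀, hγ₀⟩ : ∃ γ₀ : ℝ, γ₀ = min γ₁ (min g κ / (16 * b)) := ⟨_, rfl⟩
  have hgm : 0 < min g κ := lt_min hg0 hκ
  have hγ₀0 : 0 < γ₀ := by
    rw [hγ₀]
    exact lt_min hγ₁ (by positivity)
  have hγ₀1 : γ₀ ≤ γ₁ := by rw [hγ₀]; exact min_le_left _ _
  have hγ₀3 : 4 * b * γ₀ ≤ min g κ / 4 := by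
    have h1 : γ₀ ≤ min g κ / (16 * b) := by rw [hγ₀]; exact min_le_right _ _
    rw [le_div_iff₀ (by positivity)] at h1
    linarith
  have hγ₀2 : 4 * b * γ₀ ≤ g / 4 := by linarith [min_le_left g κ]
  have hγ₀κ : 4 * b * γ₀ ≤ κ / 4 := by linarith [min_le_right g κ]
  obtain ⟨e₀, c, R, M₁, he₀, hc, hR, hS⟩ := hS γ₀ hγ₀0 hγ₀1
  obtain ⟨M₂, hM₂, hM⟩ := end_const (γ := g / 4) (κ := κ / 2) hC' (by positivity) (by positivity)
  obtain ⟨M₃, hM₃⟩ := exists_nat_ge (Real.exp (2 * Real.log 5 / e₀))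
  refine ⟨γ₀, min (e₀ / 2) (1 / 2), min c (c' / 42), R, max M₁ (max M₂ M₃), hγ₀0, by nlinarith,
    lt_min (by positivity) (by norm_num), lt_min hc (by positivity), hR, ?_⟩
  intro M hMM Ω Λ Z Y 𝒟 _ p L z y t D X Φ x J h' R' H hnf
  have hM1 : M₁ ≤ M := (le_max_left _ _).trans hMM
  have hM2 : M₂ ≤ M := (le_max_left _ _).trans ((le_max_right _ _).trans hMM)
  have hM3 : M₃ ≤ M := (le_max_right _ _).trans ((le_max_right _ _).trans hMM)
  have hM1' : 1 ≤ M := hM₂.trans hM2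
  have hMr : (1 : ℝ) ≤ M := by exact_mod_cast hM1'
  have hM0 : (0 : ℝ) < M := by linarith
  obtain ⟨m1, m2⟩ := hM M hM2
  have hlog : 0 ≤ Real.log M := Real.log_nonneg hMr
  have hl5 : Real.log 5 ≤ e₀ / 2 * Real.log M := by
    have h1 : Real.exp (2 * Real.log 5 / e₀) ≤ M := hM₃.trans (by exact_mod_cast hM3)
    rw [← Real.le_log_iff_exp_le hM0, div_le_iff₀ he₀] at h1
    linarith
  have hee : min (e₀ / 2) (1 / 2) * Real.log M + Real.log 5 ≤ e₀ * Real.log M := by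
    have h1 : min (e₀ / 2) (1 / 2) * Real.log M ≤ e₀ / 2 * Real.log M :=
      mul_le_mul_of_nonneg_right (min_le_left _ _) hlog
    linarith
  have hee2 : min (e₀ / 2) (1 / 2) ≤ e₀ := (min_le_left _ _).trans (by linarith)
  have hst : ∀ i : Fin 3, Pb (Q6 p L z) (fun w => ¬ (
      (M : ℝ) ^ (-γ₀ * 4) ≤ |(mt ![X (D (L w.1.1.1.1.2)), X (D (L w.1.1.2)), X (D (L w.2))]).det| ∧
      Inv (X (D (L w.1.1.1.1.1))) (C (1 / A) * pderiv i (Φ (D (L w.1.1.1.1.1))))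
        (fb ![X (D (L w.1.1.1.1.2)), X (D (L w.1.1.2)), X (D (L w.2))]
          ![C (1 / A) * pderiv i (Φ (D (L w.1.1.1.1.2))), C (1 / A) * pderiv i (Φ (D (L w.1.1.2))),
            C (1 / A) * pderiv i (Φ (D (L w.2)))]) ((M : ℝ) ^ (-γ)))) ≤ c' / 102 := fun i => by
    have H1 := hder H i (hnf i)
    have H2 : ChH p L z y t D X (fun d => C (1 / A) * pderiv i (Φ d)) x
        (fun r => C (1 / A) * pderiv i (J r)) (b - 1) M ((M : ℝ) ^ e₀) (e₀ * Real.log M) h R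
        ((M : ℝ) ^ (-γ₀)) c := H1.mono (Real.rpow_le_rpow_of_exponent_le hMr hee2) hee le_rfl
      (min_le_left _ _) hM1'
    have H3 := hS M hM1 Ω Λ Z Y 𝒟 p L z y t D X (fun d => C (1 / A) * pderiv i (Φ d)) x
      (fun r => C (1 / A) * pderiv i (J r)) H2
    exact H3
  obtain ⟨η, hη⟩ : ∃ η : ℝ, η = (M : ℝ) ^ (-γ₀) := ⟨_, rfl⟩
  have hη0 : 0 < η := by rw [hη]; positivity
  have hη1 : η ≤ 1 := by
    rw [hη]
    exact Real.rpow_le_one_of_one_le_of_nonpos hMr (by linarith)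
  have hη4 : η ^ 4 = (M : ℝ) ^ (-γ₀ * 4) := by
    rw [hη, ← Real.rpow_natCast, ← Real.rpow_mul hM0.le]
    norm_num
  have hηb : η ^ (4 * b) = (M : ℝ) ^ (-(4 * b * γ₀)) := by
    rw [hη, ← Real.rpow_natCast, ← Real.rpow_mul hM0.le]
    congr 1
    push_cast
    ring
  rw [← hη4] at hst
  have hD : ∀ ω ω', 0 < p ω → 0 < p ω' → L ω = L ω' →
      X (D (L ω)) = X (D (L ω')) ∧ Φ (D (L ω)) = Φ (D (L ω')) := fun ω ω' _ _ e => by
    rw [e]; exact ⟨rfl, rfl⟩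
  have hK1 : (1 : ℝ) ≤ (M : ℝ) ^ min (e₀ / 2) (1 / 2) :=
    Real.one_le_rpow hMr (le_min (by linarith) (by norm_num))
  have hK2 : (M : ℝ) ^ min (e₀ / 2) (1 / 2) ≤ M := by
    calc (M : ℝ) ^ min (e₀ / 2) (1 / 2) ≤ (M : ℝ) ^ (1 : ℝ) :=
          Real.rpow_le_rpow_of_exponent_le hMr ((min_le_right _ _).trans (by norm_num))
      _ = M := Real.rpow_one _
  obtain ⟨f, hf, hPb⟩ := hpp H.law L z t (fun ω => X (D (L ω))) (fun ω => Φ (D (L ω))) x J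
    (K := (M : ℝ) ^ min (e₀ / 2) (1 / 2)) (η := η) (δ := (M : ℝ) ^ (-γ)) (c := min c (c' / 42))
    (c₁ := c' / 102) hM1' hK1 hK2 hη0 hη1 (by positivity) (by positivity) hD H.tM
    (fun ω => H.X1 _) (fun ω => H.Φ1 _) (fun i ω => (hder H i (hnf i)).Φ1 _) H.x1 H.pos H.jet
    (by rw [hη]; exact H.gp) hst
  have hinv : 1 / η ^ (4 * b) = (M : ℝ) ^ (4 * b * γ₀) := by
    rw [hηb, Real.rpow_neg hM0.le, one_div, inv_inv]
  refine ⟨f, fun r => hb_mono (hf r) ?_, ?_⟩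
  · have e1 : C' / η ^ (4 * b) = C' * (M : ℝ) ^ (4 * b * γ₀) := by
      rw [← hinv]
      ring
    rw [e1]
    calc C' * (M : ℝ) ^ (4 * b * γ₀) ≤ (M : ℝ) ^ (κ / 2) * (M : ℝ) ^ (κ / 2) := by
          refine mul_le_mul m2 (Real.rpow_le_rpow_of_exponent_le hMr (by linarith))
            (by positivity) (by positivity)
      _ = (M : ℝ) ^ κ := by
          rw [← Real.rpow_add hM0]
          congr 1
          ring
  · have hfin : C' * ((M : ℝ) ^ (-γ) + (M : ℝ) ^ min (e₀ / 2) (1 / 2) / M) / η ^ (4 * b) ≤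
        (M : ℝ) ^ (-(g / 4)) := by
      have e1 : C' * ((M : ℝ) ^ (-γ) + (M : ℝ) ^ min (e₀ / 2) (1 / 2) / M) / η ^ (4 * b) =
          C' * ((M : ℝ) ^ (-γ) + (M : ℝ) ^ min (e₀ / 2) (1 / 2) / M) * (M : ℝ) ^ (4 * b * γ₀) := by
        rw [← hinv]
        ring
      rw [e1]
      have f1 : (M : ℝ) ^ (-γ) ≤ (M : ℝ) ^ (-g) :=
        Real.rpow_le_rpow_of_exponent_le hMr (by linarith)
      have f2 : (M : ℝ) ^ min (e₀ / 2) (1 / 2) / M ≤ (M : ℝ) ^ (-g) := by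
        calc (M : ℝ) ^ min (e₀ / 2) (1 / 2) / M = (M : ℝ) ^ (min (e₀ / 2) (1 / 2) - 1) := by
              rw [Real.rpow_sub hM0, Real.rpow_one]
          _ ≤ (M : ℝ) ^ (-g) := Real.rpow_le_rpow_of_exponent_le hMr (by
              have := min_le_right (e₀ / 2) (1 / 2 : ℝ)
              linarith)
      have f3 : (M : ℝ) ^ (4 * b * γ₀) ≤ (M : ℝ) ^ (g / 4) :=
        Real.rpow_le_rpow_of_exponent_le hMr hγ₀2
      have f4 : 0 < (M : ℝ) ^ (-g) := by positivity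
      calc C' * ((M : ℝ) ^ (-γ) + (M : ℝ) ^ min (e₀ / 2) (1 / 2) / M) * (M : ℝ) ^ (4 * b * γ₀) ≤
            C' * ((M : ℝ) ^ (-g) + (M : ℝ) ^ (-g)) * (M : ℝ) ^ (g / 4) := by
            refine mul_le_mul (mul_le_mul_of_nonneg_left (add_le_add f1 f2) (by linarith)) f3
              (by positivity) (by positivity)
        _ = 2 * C' * ((M : ℝ) ^ (-g) * (M : ℝ) ^ (g / 4)) := by ring
        _ ≤ (M : ℝ) ^ (g / 4) * ((M : ℝ) ^ (-g) * (M : ℝ) ^ (g / 4)) :=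
            mul_le_mul_of_nonneg_right m1 (by positivity)
        _ = (M : ℝ) ^ (-(g / 2)) := by
            rw [← Real.rpow_add hM0, ← Real.rpow_add hM0]
            congr 1
            ring
        _ ≤ (M : ℝ) ^ (-(g / 4)) := Real.rpow_le_rpow_of_exponent_le hMr (by linarith)
    have hsum : 51 * (c' / 102) + 21 * min c (c' / 42) ≤ c' := by
      have := min_le_right c (c' / 42)
      linarith
    refine (Pb_mono (glueLaw' H.law H.law fun _ => rfl).nonneg fun w _ h1 h2 => h1 fun q hq =>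
      (h2 q hq).trans hfin).trans (hPb.trans hsum)

end Pool.EJ13
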