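import Pool.Agent.H13.EJ.End
import Pool.Agent.H6.STB.Str
import Pool.Agent.H89.OWN.NfD

/-!
# The gradient from the velocities of three lines

`grad_few`: the velocity of a line at a record is the derivative of the label in the direction of the
line; if it has few values given the data `b` of the line (with its direction) and the position, and if
`b` is as free given the record as given the position, then the gradient has few values given the
position. `nfg_of`: in the form of `t_endJ`, for all laws of bounded density.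
-/

set_option autoImplicit false

namespace Pool.EJ13

open Finset Real MvPolynomial
open Pool.Agent.H49.Ent Pool.Agent.H32.Dense Pool.STK
open Pool.BFL (Pb)
open Pool.K2S (cpn)
open Pool.CLU (cpn_law cpn_pos cpn_marg cpn_nonneg)
open Pool.STB (V3 Po Bx mt cv Pb_mono)
open Pool.STB6 (sol sol_spec sol_le mi_le CH_near Pb_star)

/-- **The gradient from the velocities.** -/
theorem grad_few {Ω Λ Z PP β : Type} [Fintype Ω] {p : Ω → ℝ} (hp : IsLaw p) (L : Ω → Λ) (z : Ω → Z)
    (P : Ω → PP) (hP : Det p z P) (b : Ω → β) (Yb : β → V3) (vel : Ω → ℤ) (g : Z → V3) (M : ℕ)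
    {e e' η c K G : ℝ} (hη : 0 < η) (hK : 0 ≤ K) (hG : 0 ≤ G)
    (hb : CH p b P - e ≤ CH p b z) (hX : ∀ v, Bx 1 (Yb v))
    (hv : ∀ ω, 0 < p ω → |(vel ω : ℝ) - M * ∑ i, g (z ω) i * Yb (b ω) i| ≤ K)
    (hf : CH p vel (fun ω => (b ω, P ω)) ≤ e') (hg : ∀ ω, 0 < p ω → Bx G (g (z ω)))
    (gp : ∀ H : Z → V3, (∀ r, Bx 1 (H r) ∧ ∃ i, |H r i| = 1) →
      Pb p (fun ω => |∑ i, H (z ω) i * Yb (b ω) i| ≤ η) ≤ c) (i : Fin 3) :
    CH p (fun ω => ⌊(M : ℝ) * g (z ω) i⌋) P ≤ 3 * e + 3 * e' + (Real.log 2 +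
      Real.log (3 * (18 * K / η ^ 3 + 1)) + 3 * c * Real.log (2 * (M * G + 2) + 1)) := by
  classical
  have h0 := hp.nonneg
  have m0 := cpn_nonneg h0 z 2
  have hml := cpn_law hp z 2
  have hpos := cpn_pos h0 z 2
  have hPw : ∀ w, 0 < cpn p z 2 w → ∀ k, P (w k) = P (w 0) := fun w hw k =>
    hP _ _ ((hpos w hw).1 k) ((hpos w hw).1 0) ((hpos w hw).2 k)
  obtain ⟨F, hF⟩ : ∃ F : (Fin 3 → Ω) → ℤ, F = fun w => ⌊(M : ℝ) * g (z (w 0)) i⌋ := ⟨_, rfl⟩
  obtain ⟨Ab, hAb⟩ : ∃ Ab : (Fin 3 → Ω) → Fin 3 → β, Ab = fun w k => b (w k) := ⟨_, rfl⟩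
  obtain ⟨Vv, hVv⟩ : ∃ Vv : (Fin 3 → Ω) → Fin 3 → ℤ, Vv = fun w k => vel (w k) := ⟨_, rfl⟩
  -- the data of the lines
  have h1 : CH (cpn p z 2) F (fun w => P (w 0)) = CH p (fun ω => ⌊(M : ℝ) * g (z ω) i⌋) P := by
    rw [hF]
    exact (cpn_marg h0 z 2 0).CH (fun ω => ⌊(M : ℝ) * g (z ω) i⌋) P
  have h2 := mi_le m0 F Ab (fun w : Fin 3 → Ω => P (w 0)) (fun w => z (w 0))
    (fun w w' _ _ h => by
      have h9 : z (w 0) = z (w' 0) := h
      rw [hF]; simp only; rw [h9])
    (fun w w' a b h => hP _ _ ((hpos w a).1 0) ((hpos w' b).1 0) h)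
  have h3 : CH (cpn p z 2) Ab (fun w => P (w 0)) ≤ 3 * CH p b P := by
    refine (Pool.H54.QF.CH_pi_le m0 (fun w : Fin 3 → Ω => P (w 0)) 3 Ab).trans ?_
    have h4 : ∀ k : Fin 3, CH (cpn p z 2) (fun w => Ab w k) (fun w => P (w 0)) = CH p b P := by
      intro k
      rw [hAb]
      exact Pool.H52.TIE.CH_cpn_zero hp z 2 k b P hP
    rw [Finset.sum_congr rfl fun k _ => h4 k, Finset.sum_const, Finset.card_univ,
      Fintype.card_fin, nsmul_eq_mul]
    push_cast
    exact le_rfl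
  have h4 : CH (cpn p z 2) Ab (fun w => z (w 0)) = 3 * CH p b z := by
    rw [hAb]
    refine (Pool.TMS.cpn_times hp z b 2).trans ?_
    norm_num
  -- the velocities
  have h5 := CH_le_add m0 F Vv (fun w => (Ab w, P (w 0)))
  have h6 : CH (cpn p z 2) Vv (fun w => (Ab w, P (w 0))) ≤ 3 * e' := by
    refine (Pool.H54.QF.CH_pi_le m0 (fun w : Fin 3 → Ω => (Ab w, P (w 0))) 3 Vv).trans ?_
    have h7 : ∀ k ∈ (Finset.univ : Finset (Fin 3)),
        CH (cpn p z 2) (fun w => Vv w k) (fun w => (Ab w, P (w 0))) ≤ e' := by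
      intro k _
      have h8 : CH (cpn p z 2) (fun w => Vv w k) (fun w => (b (w k), P (w k))) ≤ e' := by
        rw [hVv]
        exact ((cpn_marg h0 z 2 k).CH vel (fun ω => (b ω, P ω))).le.trans hf
      refine (CH_mono_cond m0 (W := fun w => (b (w k), P (w k))) ?_).trans h8
      intro w w' a a' h
      have e1 : Ab w = Ab w' := (Prod.ext_iff.1 h).1
      have e2 : P (w 0) = P (w' 0) := (Prod.ext_iff.1 h).2
      rw [hAb] at e1
      exact Prod.ext (congrFun e1 k) ((hPw w a k).trans (e2.trans (hPw w' a' k).symm))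
    refine (Finset.sum_le_sum h7).trans (le_of_eq ?_)
    rw [Finset.sum_const, Finset.card_univ, Fintype.card_fin, nsmul_eq_mul]
    norm_num
  -- the gradient from the velocities
  have hgp : Pb (cpn p z 2) (fun w => ¬ η ^ 3 ≤ |(mt fun k => Yb (Ab w k)).det|) ≤ 3 * c := by
    have h8 := Pool.STB.gp_three hp L z (fun ω => Yb (b ω)) hη gp
    rw [← Pb_star hp L z (fun u v w => ¬ η ^ 3 ≤ |(mt ![Yb (b u), Yb (b v), Yb (b w)]).det|)] at h8
    refine le_trans (Pb_mono m0 fun w _ h => ?_) h8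
    have h9 : (fun k => Yb (Ab w k)) = ![Yb (b (w 0)), Yb (b (w 1)), Yb (b (w 2))] := by
      rw [hAb]
      funext k
      fin_cases k <;> rfl
    rw [h9] at h
    exact h
  obtain ⟨ei, hei⟩ : ∃ ei : V3, ei = Pi.single i 1 := ⟨_, rfl⟩
  have hei1 : Bx 1 ei := fun k => by
    rw [hei]
    by_cases hk : k = i
    · rw [hk, Pi.single_eq_same, abs_one]
    · rw [Pi.single_eq_of_ne hk, abs_zero]
      exact zero_le_one
  have hGM : 0 ≤ (M : ℝ) * G := by positivity
  have h7 : CH (cpn p z 2) F (fun w => (Vv w, (Ab w, P (w 0)))) ≤ Real.log 2 +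
      Real.log (3 * (18 * K / η ^ 3 + 1)) + 3 * c * Real.log (2 * (M * G + 2) + 1) := by
    have h8 := CH_near hml F (fun w => (Vv w, (Ab w, P (w 0))))
      (fun r => ∑ k, sol (fun k => Yb (r.2.1 k)) ei k * r.1 k)
      (fun w => η ^ 3 ≤ |(mt fun k => Yb (Ab w k)).det|) (A := 18 * K / η ^ 3 + 1)
      (M := ⌊(M : ℝ) * G⌋₊ + 1) (by
        have : 0 ≤ 18 * K / η ^ 3 := by positivity
        linarith)
      (fun w hw => by
        have hGw := hg (w 0) ((hpos w hw).1 0) i
        have h10 : |(M : ℝ) * g (z (w 0)) i| ≤ M * G := by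
          rw [abs_mul, abs_of_nonneg (Nat.cast_nonneg M)]
          exact mul_le_mul_of_nonneg_left hGw (Nat.cast_nonneg M)
        have h11 := abs_le.1 h10
        have h12 := Nat.lt_floor_add_one ((M : ℝ) * G)
        have f1 := Int.floor_le ((M : ℝ) * g (z (w 0)) i)
        have f2 := Int.lt_floor_add_one ((M : ℝ) * g (z (w 0)) i)
        rw [hF]
        show |⌊(M : ℝ) * g (z (w 0)) i⌋| ≤ ((⌊(M : ℝ) * G⌋₊ + 1 : ℕ) : ℤ)
        rw [abs_le]
        constructor
        · have : (-((⌊(M : ℝ) * G⌋₊ + 1 : ℕ) : ℤ) : ℤ) ≤ ⌊(M : ℝ) * g (z (w 0)) i⌋ := by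
            rw [Int.le_floor]
            push_cast
            linarith
          exact this
        · have : (⌊(M : ℝ) * g (z (w 0)) i⌋ : ℝ) ≤ (((⌊(M : ℝ) * G⌋₊ + 1 : ℕ) : ℤ) : ℝ) := by
            push_cast
            linarith
          exact_mod_cast this)
      (fun w hw hd => by
        have hd' : 0 < η ^ 3 := by positivity
        have hne : (mt fun k => Yb (Ab w k)).det ≠ 0 := by
          intro h10
          rw [h10, abs_zero] at hd
          linarith
        have hs := sol_spec (fun k => Yb (Ab w k)) hne ei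
        have hsl := sol_le (fun k => Yb (Ab w k)) hd' (fun k => hX _) hd hei1
        -- the derivative in the direction `i`
        have h10 : (M : ℝ) * g (z (w 0)) i =
            ∑ k, sol (fun k => Yb (Ab w k)) ei k * (M * ∑ l, g (z (w 0)) l * Yb (Ab w k) l) := by
          have h11 : ∑ l, g (z (w 0)) l * ei l = g (z (w 0)) i := by
            rw [hei, Finset.sum_eq_single i (fun l _ hl => by rw [Pi.single_eq_of_ne hl, mul_zero])
              (fun hj => absurd (Finset.mem_univ _) hj), Pi.single_eq_same, mul_one]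
          rw [← h11]
          have h12 : ∀ l, ei l = ∑ k, sol (fun k => Yb (Ab w k)) ei k * Yb (Ab w k) l := by
            intro l
            have h13 := congrFun hs l
            rw [Finset.sum_apply] at h13
            exact h13.symm
          rw [Finset.sum_congr rfl fun l _ => by rw [h12 l]]
          simp_rw [Finset.mul_sum]
          rw [Finset.sum_comm]
          exact Finset.sum_congr rfl fun k _ => Finset.sum_congr rfl fun l _ => by ring
        have h11 : |(M : ℝ) * g (z (w 0)) i -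
            ∑ k, sol (fun k => Yb (Ab w k)) ei k * Vv w k| ≤ 18 * K / η ^ 3 := by
          rw [h10, ← Finset.sum_sub_distrib]
          refine (Finset.abs_sum_le_sum_abs _ _).trans ?_
          have h12 : ∀ k ∈ (Finset.univ : Finset (Fin 3)),
              |sol (fun k => Yb (Ab w k)) ei k * (M * ∑ l, g (z (w 0)) l * Yb (Ab w k) l) -
                sol (fun k => Yb (Ab w k)) ei k * Vv w k| ≤ 6 / η ^ 3 * K := by
            intro k _
            rw [← mul_sub, abs_mul]
            refine mul_le_mul ?_ ?_ (abs_nonneg _) (by positivity)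
            · have := hsl k
              rwa [mul_one] at this
            · have h13 := hv (w k) ((hpos w hw).1 k)
              have h14 : z (w k) = z (w 0) := (hpos w hw).2 k
              rw [h14, abs_sub_comm] at h13
              rw [hVv, hAb]
              exact h13
          refine (Finset.sum_le_sum h12).trans (le_of_eq ?_)
          rw [Finset.sum_const, Finset.card_univ, Fintype.card_fin, nsmul_eq_mul]
          push_cast
          ring
        have f1 := Int.floor_le ((M : ℝ) * g (z (w 0)) i)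
        have f2 := Int.lt_floor_add_one ((M : ℝ) * g (z (w 0)) i)
        have h12 := abs_le.1 h11
        rw [hF]
        show |(⌊(M : ℝ) * g (z (w 0)) i⌋ : ℝ) - ∑ k, sol (fun k => Yb (Ab w k)) ei k * Vv w k| ≤ _
        rw [abs_le]
        constructor <;> linarith [h12.1, h12.2])
    refine h8.trans ?_
    have h9 : (2 : ℝ) * ((⌊(M : ℝ) * G⌋₊ + 1 : ℕ) : ℝ) + 1 ≤ 2 * (M * G + 2) + 1 := by
      have := Nat.floor_le hGM
      push_cast
      linarith
    have h10 : Real.log (2 * ((⌊(M : ℝ) * G⌋₊ + 1 : ℕ) : ℝ) + 1) ≤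
        Real.log (2 * (M * G + 2) + 1) := Real.log_le_log (by positivity) h9
    have h11 : 0 ≤ Real.log (2 * ((⌊(M : ℝ) * G⌋₊ + 1 : ℕ) : ℝ) + 1) :=
      Real.log_nonneg (by
        have : (0 : ℝ) ≤ ((⌊(M : ℝ) * G⌋₊ + 1 : ℕ) : ℝ) := Nat.cast_nonneg _
        linarith)
    have h12 : Pb (cpn p z 2) (fun w => ¬ η ^ 3 ≤ |(mt fun k => Yb (Ab w k)).det|) *
        Real.log (2 * ((⌊(M : ℝ) * G⌋₊ + 1 : ℕ) : ℝ) + 1) ≤
        3 * c * Real.log (2 * (M * G + 2) + 1) := by
      refine (mul_le_mul_of_nonneg_right hgp h11).trans ?_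
      refine mul_le_mul_of_nonneg_left h10 ?_
      have h13 : 0 ≤ Pb (cpn p z 2) (fun w => ¬ η ^ 3 ≤ |(mt fun k => Yb (Ab w k)).det|) := by
        unfold Pool.BFL.Pb
        refine Finset.sum_nonneg fun w _ => ?_
        split_ifs
        · exact m0 w
        · exact le_rfl
      linarith
    linarith
  rw [← h1]
  linarith

/-- **The nonfullness of the derivatives**, for all laws of bounded density. -/
theorem nfg_of {Ω Λ Z Y β : Type} [Fintype Ω] {p : Ω → ℝ} (hp : IsLaw p) (L : Ω → Λ)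
    (z : Ω → Z) (y : Ω → Y) (x : Z → V3) (J : Z → Po) (b : Ω → β) (Yb : β → V3) (vel : Ω → ℤ)
    (M : ℕ) {e e' η c K G R : ℝ} (hη : 0 < η) (hK : 0 ≤ K) (hG : 0 ≤ G)
    (hy : ∀ ω ω', 0 < p ω → 0 < p ω' → z ω = z ω' → y ω = y ω')
    (hb : CH p b (fun ω => (cv M (x (z ω)), y ω)) - e ≤ CH p b z) (hX : ∀ v, Bx 1 (Yb v))
    (hv : ∀ ω, 0 < p ω →
      |(vel ω : ℝ) - M * ∑ i, eval (x (z ω)) (pderiv i (J (z ω))) * Yb (b ω) i| ≤ K)
    (hf : CH p vel (fun ω => (b ω, (cv M (x (z ω)), y ω))) ≤ e')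
    (hg : ∀ ω i, 0 < p ω → |eval (x (z ω)) (pderiv i (J (z ω)))| ≤ G)
    (gp : ∀ H : Z → V3, (∀ r, Bx 1 (H r) ∧ ∃ i, |H r i| = 1) →
      Pb p (fun ω => |∑ i, H (z ω) i * Yb (b ω) i| ≤ η) ≤ c) (i : Fin 3) (q : Ω → ℝ)
    (hq : IsLaw q) (hd : ∀ ω, q ω ≤ R * p ω) :
    CH q (fun ω => ⌊(M : ℝ) * eval (x (z ω)) (pderiv i (J (z ω)))⌋)
      (fun ω => (cv M (x (z ω)), y ω)) ≤ R * (3 * e + 3 * e' + (Real.log 2 +
        Real.log (3 * (18 * K / η ^ 3 + 1)) + 3 * c * Real.log (2 * (M * G + 2) + 1))) := by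
  have h1 := grad_few hp L z (fun ω => (cv M (x (z ω)), y ω)) (fun ω ω' a b h => by
      simp only
      rw [h, hy ω ω' a b h]) b Yb vel (fun r i => eval (x r) (pderiv i (J r))) M hη hK hG hb hX hv hf
    (fun ω hω i => hg ω i hω) gp i
  have hpos : ∀ ω, 0 < q ω → 0 < p ω := fun ω h => by
    rcases (hp.nonneg ω).eq_or_lt with h0 | h0
    · have := hd ω
      rw [← h0, mul_zero] at this
      linarith
    · exact h0
  have hR : 0 ≤ R := by
    by_contra hR
    push Not at hR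
    have h2 : ∑ ω, q ω ≤ ∑ ω, R * p ω := Finset.sum_le_sum fun ω _ => hd ω
    rw [hq.sum_one, ← Finset.mul_sum, hp.sum_one] at h2
    linarith
  refine (Pool.NFD.CH_le_mul hp.nonneg hq hd hpos _ _).trans ?_
  exact mul_le_mul_of_nonneg_left h1 hR

end Pool.EJ13
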